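import Pool.Agent.Lib.MP_abc6c1_co.Flats

namespace Pool.Agent.Results.MP_abc6c1_co.InversionCCZ

/-- Almost perfect nonlinear maps: for every `a ≠ 0` and every `b` the equation
`f (x + a) + f x = b` has at most two solutions. -/
def IsAPN {F : Type*} [Field F] (f : F → F) : Prop :=
  ∀ a : F, a ≠ 0 → ∀ b : F, {x : F | f (x + a) + f x = b}.encard ≤ 2

/-- `R` is a relative `(m, u, k, l)` difference set in the additive group `G` relative to the
subgroup `N`. -/
structure IsRDS {G : Type*} [AddCommGroup G] (R : Set G) (N : AddSubgroup G)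
    (m u k l : ℕ) : Prop where
  card_group : Nat.card G = m * u
  card_sub : Nat.card N = u
  card_set : R.encard = k
  diff_out : ∀ d : G, d ∉ N →
    {p : G × G | p.1 ∈ R ∧ p.2 ∈ R ∧ p.1 ≠ p.2 ∧ p.1 - p.2 = d}.encard = l
  diff_in : ∀ d : G, d ∈ N → d ≠ 0 → ∀ r ∈ R, ∀ r' ∈ R, r - r' ≠ d

/-- The image set of `f` is a nontrivial relative difference set relative to some subgroup. -/
def GivesRDS {F : Type*} [Field F] (f : F → F) : Prop :=
  ∃ (N : AddSubgroup F) (m u k l : ℕ), IsRDS (Set.range f) N m u k l ∧ 2 ≤ k ∧ k + 2 ≤ m * u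

/-- CCZ-equivalence of maps on the field `F_{2^n}`: an affine permutation of `F × F` over the
prime field maps one graph onto the other. -/
def CCZEquiv {n : ℕ} (f g : GaloisField 2 n → GaloisField 2 n) : Prop :=
  ∃ A : (GaloisField 2 n × GaloisField 2 n) ≃ᵃ[ZMod 2] (GaloisField 2 n × GaloisField 2 n),
    A '' {p | p.2 = f p.1} = {p | p.2 = g p.1}

/-- inversion on a field with 32 elements is APN -/
theorem inv_isAPN {F : Type*} [Field F] [Finite F] (hF : Nat.card F = 32) :
    IsAPN (fun x : F => x⁻¹) := by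
  classical
  intro a ha b
  have h2 : (2 : F) = 0 := Pool.Agent.Lib.MP_abc6c1_co.two_eq_zero hF
  have hadd : ∀ x y : F, x + y = 0 → x = y := by
    intro x y h
    have : y + y = 0 := by
      have h1 : y + y = 2 * y := by ring
      rw [h1, h2, zero_mul]
    linear_combination h - this
  have hcube : ∀ t : F, t ^ 2 + t + 1 ≠ 0 := by
    intro t ht
    have : Fintype F := Fintype.ofFinite F
    have hcard : Fintype.card F = 32 := by rw [← Nat.card_eq_fintype_card]; exact hF
    have ht0 : t ≠ 0 := by
      rintro rfl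
      simp at ht
    have h31 : t ^ 31 = 1 := by
      have := FiniteField.pow_card_sub_one_eq_one t ht0
      rwa [hcard] at this
    have h3 : t ^ 3 = 1 := by linear_combination (t - 1) * ht
    have h1 : t = 1 := by
      have h4 : t ^ 31 = (t ^ 3) ^ 10 * t := by ring
      rw [h31, h3, one_pow, one_mul] at h4
      exact h4.symm
    rw [h1] at ht
    have h5 : (1 : F) ^ 2 + 1 + 1 = 2 + 1 := by ring
    rw [h5, h2, zero_add] at ht
    exact one_ne_zero ht
  -- two solutions differ by `0` or `a`
  have key : ∀ x y : F, (x + a)⁻¹ + x⁻¹ = b → (y + a)⁻¹ + y⁻¹ = b → y = x ∨ y = x + a := by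
    have hA : ∀ y : F, y ≠ 0 → y + a ≠ 0 → (y + a)⁻¹ + y⁻¹ = b → b * (y * (y + a)) = a := by
      intro y hy hya h
      rw [← h]
      field_simp
      linear_combination y * h2
    have hB : ∀ x y : F, (x = 0 ∨ x + a = 0) → (x + a)⁻¹ + x⁻¹ = b →
        (y + a)⁻¹ + y⁻¹ = b → y = 0 ∨ y + a = 0 := by
      intro x y hx hxb hyb
      have hb : b = a⁻¹ := by
        rcases hx with hx | hx
        · rw [hx] at hxb
          simpa using hxb.symm
        · rw [hx] at hxb
          have hxa : x = a := hadd x a hx
          rw [hxa] at hxb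
          simpa using hxb.symm
      by_contra hcon
      push Not at hcon
      have h1 := hA y hcon.1 hcon.2 hyb
      rw [hb] at h1
      apply hcube (y / a)
      field_simp
      have h3 : y * (y + a) = a ^ 2 := by
        field_simp at h1
        linear_combination h1
      linear_combination h3 + a ^ 2 * h2
    intro x y hx hy
    by_cases hx0 : x = 0 ∨ x + a = 0
    · have hy0 := hB x y hx0 hx hy
      rcases hx0 with h1 | h1 <;> rcases hy0 with h3 | h3
      · left; rw [h1, h3]
      · right; rw [h1, zero_add]; exact hadd y a h3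
      · right; rw [h1, h3]
      · left; exact (hadd y a h3).trans (hadd x a h1).symm
    · by_cases hy0 : y = 0 ∨ y + a = 0
      · exact absurd (hB y x hy0 hy hx) hx0
      · push Not at hx0 hy0
        have h1 := hA x hx0.1 hx0.2 hx
        have h3 := hA y hy0.1 hy0.2 hy
        have hb : b ≠ 0 := by
          rintro rfl
          rw [zero_mul] at h1
          exact ha h1.symm
        have h4 : x * (x + a) = y * (y + a) := mul_left_cancel₀ hb (h1.trans h3.symm)
        have h5 : (y - x) * (y - (x + a)) = 0 := by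
          linear_combination - h4 + (x ^ 2 - x * y + x * a - y * a) * h2
        rcases mul_eq_zero.mp h5 with h6 | h6
        · left; exact sub_eq_zero.mp h6
        · right; exact sub_eq_zero.mp h6
  by_cases hne : ∃ x : F, (x + a)⁻¹ + x⁻¹ = b
  · obtain ⟨x, hx⟩ := hne
    have hsub : {y : F | (fun x : F => x⁻¹) (y + a) + (fun x : F => x⁻¹) y = b} ⊆ {x, x + a} := by
      intro y hy
      rcases key x y hx hy with h | h
      · left; exact h
      · right; exact h
    refine (Set.encard_le_encard hsub).trans ((Set.encard_insert_le _ _).trans ?_)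
    rw [Set.encard_singleton]
    norm_num
  · have hempty : {y : F | (fun x : F => x⁻¹) (y + a) + (fun x : F => x⁻¹) y = b} = ∅ := by
      ext y
      simp only [Set.mem_ofPred_eq, Set.mem_empty_iff_false, iff_false]
      exact fun h => hne ⟨y, h⟩
    rw [hempty, Set.encard_empty]
    exact zero_le

/-- there is no nontrivial ordinary difference set in a group of order 32 -/
theorem no_difference_set {G : Type*} [AddCommGroup G] [Finite G] (hG : Nat.card G = 32)
    (R : Set G) (m u k l : ℕ) (h : IsRDS R (⊥ : AddSubgroup G) m u k l) (hk : 2 ≤ k)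
    (hk2 : k + 2 ≤ m * u) : False := by
  classical
  have : Fintype G := Fintype.ofFinite G
  have hcard : Fintype.card G = 32 := by rw [← Nat.card_eq_fintype_card]; exact hG
  have hmu := h.card_group
  rw [hG] at hmu
  set S : Finset G := R.toFinset with hS
  have hScard : S.card = k := by
    have h1 := h.card_set
    rw [Set.encard_eq_coe_toFinset_card] at h1
    exact_mod_cast h1
  have hcount : S.offDiag.card = ∑ d ∈ (Finset.univ.erase (0 : G)), l := by
    rw [Finset.card_eq_sum_card_fiberwise (f := fun p : G × G => p.1 - p.2)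
      (t := Finset.univ.erase (0 : G))]
    · apply Finset.sum_congr rfl
      intro d hd
      have hd0 : d ∉ (⊥ : AddSubgroup G) := by
        rw [AddSubgroup.mem_bot]
        exact (Finset.mem_erase.mp hd).1
      have h1 := h.diff_out d hd0
      rw [Set.encard_eq_coe_toFinset_card] at h1
      have h3 : (S.offDiag.filter (fun p : G × G => p.1 - p.2 = d)) =
          {p : G × G | p.1 ∈ R ∧ p.2 ∈ R ∧ p.1 ≠ p.2 ∧ p.1 - p.2 = d}.toFinset := by
        ext p
        simp [hS, Finset.mem_offDiag, and_assoc]
      rw [h3]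
      exact_mod_cast h1
    · intro p hp
      simp only [Finset.coe_offDiag, Set.mem_offDiag] at hp
      simp only [Finset.coe_erase, Finset.coe_univ, Set.mem_sdiff, Set.mem_univ, true_and,
        Set.mem_singleton_iff]
      exact fun h1 => hp.2.2 (sub_eq_zero.mp h1)
  rw [Finset.offDiag_card, Finset.sum_const, Finset.card_erase_of_mem (Finset.mem_univ _),
    Finset.card_univ, hcard, hScard] at hcount
  simp only [smul_eq_mul] at hcount
  have hk3 : k ≤ 30 := by omega
  have h31 : (31 : ℕ) ∣ k * (k - 1) := by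
    refine ⟨l, ?_⟩
    rw [Nat.mul_sub, mul_one]
    exact hcount
  rcases (Nat.Prime.dvd_mul (by norm_num)).mp h31 with h1 | h1
  · have := Nat.le_of_dvd (by omega) h1
    omega
  · have := Nat.le_of_dvd (by omega) h1
    omega

/-- Inversion `x ↦ x⁻¹` (with `0⁻¹ = 0`) on `F_32` is APN, and no map CCZ-equivalent to it has
as image set a nontrivial relative difference set of the additive group. -/
theorem result :
    IsAPN (fun x : GaloisField 2 5 => x⁻¹) ∧
    ∀ g : GaloisField 2 5 → GaloisField 2 5,
      CCZEquiv (fun x : GaloisField 2 5 => x⁻¹) g → ¬ GivesRDS g := by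
  classical
  have hF : Nat.card (GaloisField 2 5) = 32 := by
    rw [GaloisField.card 2 5 (by norm_num)]
    norm_num
  have h2 : (2 : GaloisField 2 5) = 0 := Pool.Agent.Lib.MP_abc6c1_co.two_eq_zero hF
  refine ⟨inv_isAPN hF, ?_⟩
  rintro g ⟨A, hA⟩ ⟨N, m, u, k, l, hR, hk, hk2⟩
  by_cases hN : N = ⊥
  · subst hN
    exact no_difference_set hF _ m u k l hR hk hk2
  · obtain ⟨c, hcN, hc⟩ : ∃ c ∈ N, c ≠ 0 := by
      by_contra hcon
      push Not at hcon
      exact hN ((AddSubgroup.eq_bot_iff_forall N).mpr hcon)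
    let φ : GaloisField 2 5 × GaloisField 2 5 →+ GaloisField 2 5 :=
      (AddMonoidHom.snd _ _).comp A.linear.toLinearMap.toAddMonoidHom
    have hφ : Function.Surjective φ := by
      intro y
      obtain ⟨p, hp⟩ := A.linear.surjective (0, y)
      exact ⟨p, by change (A.linear p).2 = y; rw [hp]⟩
    obtain ⟨x, y, hxy, hφc⟩ := Pool.Agent.Lib.MP_abc6c1_co.flats hF φ hφ c hc
    have hmem : ∀ t : GaloisField 2 5, (A (t, t⁻¹)).2 ∈ Set.range g := by
      intro t
      have h1 : A (t, t⁻¹) ∈ A '' {p | p.2 = (fun x : GaloisField 2 5 => x⁻¹) p.1} :=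
        ⟨(t, t⁻¹), rfl, rfl⟩
      rw [hA] at h1
      exact ⟨(A (t, t⁻¹)).1, h1.symm⟩
    apply hR.diff_in c hcN hc _ (hmem x) _ (hmem y)
    have h3 : A (x, x⁻¹) - A (y, y⁻¹) = A.linear ((x, x⁻¹) - (y, y⁻¹)) := by
      have := A.toAffineMap.linearMap_vsub (x, x⁻¹) (y, y⁻¹)
      simpa using this.symm
    have h4 : ((x, x⁻¹) - (y, y⁻¹) : GaloisField 2 5 × GaloisField 2 5) =
        (x + y, x⁻¹ + y⁻¹) := by
      apply Prod.ext
      · change x - y = x + y
        linear_combination - y * h2
      · change x⁻¹ - y⁻¹ = x⁻¹ + y⁻¹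
        linear_combination - y⁻¹ * h2
    have h5 : (A (x, x⁻¹)).2 - (A (y, y⁻¹)).2 = (A (x, x⁻¹) - A (y, y⁻¹)).2 := rfl
    rw [h5, h3, h4]
    exact hφc

end Pool.Agent.Results.MP_abc6c1_co.InversionCCZ
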